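import Pool.Agent.N649.SL.StmG
import Pool.Agent.R620.GG.Ab2

set_option autoImplicit false

/-!
# Shelah's conjecture for `L_{ω₁,ω}`-sentences about abelian groups given by the multiplication

Leaf `Ab` of the project SL, by translation of the sentences (helper434).
-/

namespace Pool.Agent.N649.SL

open FirstOrder FirstOrder.Language Cardinal Ordinal
open Pool.Agent.Helper140.CC (Fml Sat Models Categorical)
open Pool.Agent.R377.LW (L3 T3R Rr toL3 rr_toL3 mkL3 rr_equiv rel_r)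
open Pool.Agent.N649.SV (Grp)
open Pool.Agent.R620.GG (GFm SatG HoldsG InVarG CatG ab_conj)

namespace AbL

/-- the translation of the formulas -/
theorem tr {n : ℕ} (φ : Fml L3 n) : ∃ φ' : GFm n, ∀ (G : Type) (_ : Group G) (_ : L3.Structure G),
    (∀ x y z : G, Rr G x y z ↔ x * y = z) → ∀ v : Fin n → G, (SatG G φ' v ↔ Sat G φ v) := by
  induction φ with
  | @eq n i j =>
    refine ⟨.eqn (FreeGroup.of i * (FreeGroup.of j)⁻¹), fun G _ _ _ v => ?_⟩
    show FreeGroup.lift v (FreeGroup.of i * (FreeGroup.of j)⁻¹) = 1 ↔ v i = v j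
    rw [map_mul, map_inv, FreeGroup.lift_apply_of, FreeGroup.lift_apply_of, mul_inv_eq_one]
  | @rel n k R u =>
    cases R
    refine ⟨.eqn (FreeGroup.of (u 0) * FreeGroup.of (u 1) * (FreeGroup.of (u 2))⁻¹),
      fun G _ _ h v => ?_⟩
    show FreeGroup.lift v (FreeGroup.of (u 0) * FreeGroup.of (u 1) * (FreeGroup.of (u 2))⁻¹) = 1 ↔
      Structure.RelMap (L := L3) (n := 3) T3R.r (v ∘ u)
    rw [map_mul, map_mul, map_inv, FreeGroup.lift_apply_of, FreeGroup.lift_apply_of,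
      FreeGroup.lift_apply_of, mul_inv_eq_one, rel_r]
    exact (h _ _ _).symm
  | @not n φ ih =>
    obtain ⟨φ', h⟩ := ih
    exact ⟨.neg φ', fun G iG sG hG v => not_congr (h G iG sG hG v)⟩
  | @conj n φ ih =>
    choose φ' h using ih
    exact ⟨.conj φ', fun G iG sG hG v => forall_congr' fun i => h i G iG sG hG v⟩
  | @ex n φ ih =>
    obtain ⟨φ', h⟩ := ih
    exact ⟨.ex φ', fun G iG sG hG v => exists_congr fun x => h G iG sG hG (Fin.cons x v)⟩

/-- the group given by a multiplication -/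
theorem grp_ex {M : Type} {g : M → M → M} (hg : Grp g) (m : M) :
    ∃ _ : Group M, ∀ x y : M, x * y = g x y := by
  obtain ⟨e, he1, -⟩ := Pool.Agent.N649.SV.GG.Grp.one hg m
  have hinv : ∀ a, ∃ x, g x a = e := fun a => (hg.2 a e).2
  choose i hi using hinv
  letI : Mul M := ⟨g⟩
  letI : One M := ⟨e⟩
  letI : Inv M := ⟨i⟩
  exact ⟨Group.ofLeftAxioms hg.1 he1 hi, fun _ _ => rfl⟩

/-- the commutator of two generators -/
def W : Set (FreeGroup ℕ) :=
  {FreeGroup.of 0 * FreeGroup.of 1 * (FreeGroup.of 0)⁻¹ * (FreeGroup.of 1)⁻¹}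

theorem inVar_W (G : Type) [Group G] : InVarG W G ↔ ∀ a b : G, a * b = b * a := by
  have key : ∀ v : ℕ → G, FreeGroup.lift v (FreeGroup.of 0 * FreeGroup.of 1 * (FreeGroup.of 0)⁻¹ *
      (FreeGroup.of 1)⁻¹) = 1 ↔ v 0 * v 1 = v 1 * v 0 := by
    intro v
    simp only [map_mul, map_inv, FreeGroup.lift_apply_of]
    rw [mul_inv_eq_one, mul_inv_eq_iff_eq_mul]
  constructor
  · intro h a b
    have h1 := (key (fun n => if n = 0 then a else b)).1 (h _ rfl _)
    simpa using h1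
  · rintro h w rfl v
    exact (key v).2 (h _ _)

end AbL

open AbL in
theorem leaf_Ab : Leaf_Ab := by
  intro ψ hψ μ μ' hμ hμ' hcat
  obtain ⟨ψ', hψ'⟩ := tr ψ
  have h0 : ℵ₀ < ℶ_ (ω_ 1) := by
    rw [← beth_zero]
    exact beth_strictMono (Ordinal.omega_pos 1)
  have hm : ∀ (G : Type) (iG : Group G) (sG : L3.Structure G),
      (∀ x y z : G, Rr G x y z ↔ x * y = z) → (HoldsG ψ' G ↔ Models G ψ) :=
    fun G iG sG h => hψ' G iG sG h Fin.elim0
  -- a model is a commutative group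
  have hgr : ∀ (ν : Cardinal.{0}), ℵ₀ < ν → ∀ (B : Type) (_ : L3.Structure B), #B = ν →
      Models B ψ → ∃ _ : Group B, (∀ x y z : B, Rr B x y z ↔ x * y = z) ∧
        ∀ x y : B, x * y = y * x := by
    intro ν hν B _ hB hmod
    obtain ⟨m, h1, h2, h3⟩ := hψ B hmod
    have hne : Nonempty B := by
      rw [← mk_ne_zero_iff, hB]
      exact (aleph0_pos.trans hν).ne'
    obtain ⟨b⟩ := hne
    obtain ⟨iB, h4⟩ := grp_ex h2 b
    exact ⟨iB, fun x y z => by rw [h1, h4], fun x y => by rw [h4, h4, h3]⟩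
  have hiff : ∀ ν : Cardinal.{0}, ℵ₀ < ν → (CatG W ψ' ν ↔ Categorical ψ ν) := by
    intro ν hν
    constructor
    · rintro ⟨⟨G, iG, hGc, hGW, hG⟩, h⟩
      constructor
      · exact ⟨G, toL3 (fun x y z => x * y = z), hGc,
          (hm G iG (toL3 (fun x y z => x * y = z)) (fun _ _ _ => Iff.rfl)).1 hG⟩
      · intro M N sM sN hMc hNc hM hN
        obtain ⟨iM, hM1, hM2⟩ := hgr ν hν M sM hMc hM
        obtain ⟨iN, hN1, hN2⟩ := hgr ν hν N sN hNc hN
        obtain ⟨e⟩ := h M N hMc hNc ((inVar_W M).2 hM2) ((inVar_W N).2 hN2)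
          ((hm M iM sM hM1).2 hM) ((hm N iN sN hN1).2 hN)
        refine ⟨mkL3 e.toEquiv fun x y z => ?_⟩
        rw [hN1, hM1]
        show e x * e y = e z ↔ x * y = z
        rw [← map_mul, e.injective.eq_iff]
    · rintro ⟨⟨M, sM, hMc, hM⟩, h⟩
      constructor
      · obtain ⟨iM, hM1, hM2⟩ := hgr ν hν M sM hMc hM
        exact ⟨M, iM, hMc, (inVar_W M).2 hM2, (hm M iM sM hM1).2 hM⟩
      · intro G H iG iH hGc hHc _ _ hG hH
        letI sG : L3.Structure G := toL3 (fun x y z => x * y = z)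
        letI sH : L3.Structure H := toL3 (fun x y z => x * y = z)
        obtain ⟨e⟩ := h G H hGc hHc
          ((hm G iG sG (fun _ _ _ => Iff.rfl)).1 hG)
          ((hm H iH sH (fun _ _ _ => Iff.rfl)).1 hH)
        have h1 : ∀ x y : G, e (x * y) = e x * e y := fun x y =>
          ((rr_equiv e x y (x * y)).2 (rfl : x * y = x * y) : e x * e y = e (x * y)).symm
        exact ⟨{ e.toEquiv with map_mul' := h1 }⟩
  rw [← hiff μ' (h0.trans_le hμ')]
  exact ab_conj W (fun G _ hG => (inVar_W G).1 hG) ψ' μ μ' hμ hμ' ((hiff μ (h0.trans_le hμ)).2 hcat)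

end Pool.Agent.N649.SL
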