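import Pool.Agent.R377.LW.Tr

set_option autoImplicit false

/-!
# Sentences of `L_{ω₁,ω}` about operations: a criterion for hardness
-/

namespace Pool.Agent.N649.SL

open FirstOrder FirstOrder.Language Cardinal Ordinal
open Pool.Agent.Helper140.CC (Fml Sat Models Categorical)
open Pool.Agent.TH748.CG (Gr gA Dfb rel_adj sat_equiv)
open Pool.Agent.R620.VA (SatI satI_iff mkGr gA_equiv toGr gA_toGr Deg3 hard_deg3)
open Pool.Agent.R377.LW (L3 T3R Rr toL3 rr_toL3 mkL3 rr_equiv dfb_rr)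

/-- `m` is the operation of the structure -/
def Gh (B : Type) [L3.Structure B] (m : B → B → B) : Prop := ∀ x y z, Rr B x y z ↔ m x y = z

theorem Gh.uniq {B : Type} [L3.Structure B] {m m' : B → B → B} (h : Gh B m) (h' : Gh B m') :
    m' = m := by
  funext x y
  exact (h' x y _).1 ((h x y _).2 rfl)

/-- properties of tuples in algebras with one operation -/
abbrev PrO (n : ℕ) : Type 1 := ∀ M : Type, (M → M → M) → (Fin n → M) → Prop

/-- the property is expressed by a formula -/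
def DfO {n : ℕ} (P : PrO n) : Prop :=
  Dfb (L := L3) (fun B _ v => ∃ m : B → B → B, Gh B m ∧ P B m v)

section

variable {n : ℕ}

theorem dfb_gh : Dfb (L := L3) (n := n) (fun B _ _ => ∃ m : B → B → B, Gh B m) := by
  have h : Dfb (L := L3) (n := n) (fun B _ _ => ∀ x y : B, ∃ z, Rr B x y z ∧
      ∀ z', Rr B x y z' → z' = z) :=
    Dfb.all (P := fun B _ v => ∀ y, ∃ z, Rr B (v 0) y z ∧ ∀ z', Rr B (v 0) y z' → z' = z)
      (Dfb.all (P := fun B _ v => ∃ z, Rr B (v 1) (v 0) z ∧ ∀ z', Rr B (v 1) (v 0) z' → z' = z)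
        (Dfb.ex (P := fun B _ v => Rr B (v 2) (v 1) (v 0) ∧ ∀ z', Rr B (v 2) (v 1) z' → z' = v 0)
          ((dfb_rr _ _ _).and (Dfb.all (P := fun B _ v => Rr B (v 3) (v 2) (v 0) → v 0 = v 1)
            ((dfb_rr _ _ _).imp (Dfb.eq _ _))))))
  refine h.congr fun B _ v => ⟨?_, fun h => ?_⟩
  · rintro ⟨m, hm⟩ x y
    exact ⟨m x y, (hm _ _ _).2 rfl, fun z' hz => ((hm _ _ _).1 hz).symm⟩
  · choose m hm hm' using h
    exact ⟨m, fun x y z => ⟨fun h => (hm' x y z h).symm, fun h => h ▸ hm x y⟩⟩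

theorem DfO.congr {P Q : PrO n} (h : DfO P) (hPQ : ∀ (M : Type) (m : M → M → M) (v : Fin n → M),
    Q M m v ↔ P M m v) : DfO Q :=
  Dfb.congr h fun B _ v => exists_congr fun m => and_congr Iff.rfl (hPQ B m v)

theorem DfO.rename {k : ℕ} {P : PrO k} (h : DfO P) (f : Fin k → Fin n) :
    DfO (n := n) (fun M m v => P M m (v ∘ f)) := Dfb.rename h f

theorem DfO.const (p : Prop) : DfO (n := n) (fun _ _ _ => p) :=
  ((dfb_gh (n := n)).and (Dfb.const n p)).congr fun B _ v => by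
    constructor
    · rintro ⟨m, h, hp⟩
      exact ⟨⟨m, h⟩, hp⟩
    · rintro ⟨⟨m, h⟩, hp⟩
      exact ⟨m, h, hp⟩

theorem DfO.not {P : PrO n} (h : DfO P) : DfO (n := n) (fun M m v => ¬ P M m v) :=
  ((dfb_gh (n := n)).and (Dfb.not h)).congr fun B _ v => by
    constructor
    · rintro ⟨m, hm, hp⟩
      refine ⟨⟨m, hm⟩, ?_⟩
      rintro ⟨m', hm', hp'⟩
      rw [hm.uniq hm'] at hp'
      exact hp hp'
    · rintro ⟨⟨m, hm⟩, hp⟩
      exact ⟨m, hm, fun h => hp ⟨m, hm, h⟩⟩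

theorem DfO.and {P Q : PrO n} (h : DfO P) (h' : DfO Q) :
    DfO (n := n) (fun M m v => P M m v ∧ Q M m v) :=
  (Dfb.and h h').congr fun B _ v => by
    constructor
    · rintro ⟨m, hm, hp, hq⟩
      exact ⟨⟨m, hm, hp⟩, m, hm, hq⟩
    · rintro ⟨⟨m, hm, hp⟩, m', hm', hq⟩
      rw [hm.uniq hm'] at hq
      exact ⟨m, hm, hp, hq⟩

theorem DfO.imp {P Q : PrO n} (h : DfO P) (h' : DfO Q) :
    DfO (n := n) (fun M m v => P M m v → Q M m v) :=
  (h.and h'.not).not.congr fun M m v => by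
    push Not
    exact Iff.rfl

theorem DfO.or {P Q : PrO n} (h : DfO P) (h' : DfO Q) :
    DfO (n := n) (fun M m v => P M m v ∨ Q M m v) :=
  (h.not.imp h').congr fun M m v => or_iff_not_imp_left

theorem DfO.iff {P Q : PrO n} (h : DfO P) (h' : DfO Q) :
    DfO (n := n) (fun M m v => (P M m v ↔ Q M m v)) :=
  ((h.imp h').and (h'.imp h)).congr fun M m v => iff_iff_implies_and_implies

theorem DfO.ex {P : PrO (n + 1)} (h : DfO P) :
    DfO (n := n) (fun M m v => ∃ x : M, P M m (Fin.cons x v)) :=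
  (Dfb.ex h).congr fun B _ v => by
    constructor
    · rintro ⟨m, hm, x, hx⟩
      exact ⟨x, m, hm, hx⟩
    · rintro ⟨x, m, hm, hx⟩
      exact ⟨m, hm, x, hx⟩

theorem DfO.all {P : PrO (n + 1)} (h : DfO P) :
    DfO (n := n) (fun M m v => ∀ x : M, P M m (Fin.cons x v)) :=
  h.not.ex.not.congr fun M m v => by
    push Not
    exact Iff.rfl

/-- countable disjunctions -/
theorem DfO.disj {ι : Type} [Countable ι] {P : ι → PrO n} (h : ∀ i, DfO (P i)) :
    DfO (n := n) (fun M m v => ∃ i, P i M m v) :=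
  (Dfb.disj (P := fun i B _ v => ∃ m : B → B → B, Gh B m ∧ P i B m v) h).congr fun B _ v => by
    constructor
    · rintro ⟨m, hm, i, hi⟩
      exact ⟨i, m, hm, hi⟩
    · rintro ⟨i, m, hm, hi⟩
      exact ⟨m, hm, i, hi⟩

/-- countable conjunctions -/
theorem DfO.conj {ι : Type} [Countable ι] {P : ι → PrO n} (h : ∀ i, DfO (P i)) :
    DfO (n := n) (fun M m v => ∀ i, P i M m v) :=
  (DfO.disj fun i => (h i).not).not.congr fun M m v => by
    push Not
    exact Iff.rfl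

/-- blocks of quantifiers -/
theorem DfO.exN {k : ℕ} {P : ∀ M : Type, (M → M → M) → (Fin k → M) → (Fin n → M) → Prop}
    (h : DfO (n := k + n) (fun M m v =>
      P M m (fun i => v (Fin.castAdd n i)) (fun j => v (Fin.natAdd k j)))) :
    DfO (n := n) (fun M m v => ∃ c : Fin k → M, P M m c v) :=
  (Dfb.exN (P := fun B _ c v => ∃ m : B → B → B, Gh B m ∧ P B m c v) h).congr fun B _ v => by
    constructor
    · rintro ⟨m, hm, c, hc⟩
      exact ⟨c, m, hm, hc⟩
    · rintro ⟨c, m, hm, hc⟩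
      exact ⟨m, hm, c, hc⟩

/-- blocks of quantifiers -/
theorem DfO.allN {k : ℕ} {P : ∀ M : Type, (M → M → M) → (Fin k → M) → (Fin n → M) → Prop}
    (h : DfO (n := k + n) (fun M m v =>
      P M m (fun i => v (Fin.castAdd n i)) (fun j => v (Fin.natAdd k j)))) :
    DfO (n := n) (fun M m v => ∀ c : Fin k → M, P M m c v) :=
  (DfO.exN (P := fun M m c v => ¬ P M m c v) h.not).not.congr fun M m v => by
    push Not
    exact Iff.rfl

/-- terms -/
inductive Q (n : ℕ) where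
  | v (i : Fin n)
  | m (s t : Q n)

/-- the value of a term -/
def Q.ev {M : Type} (m : M → M → M) (v : Fin n → M) : Q n → M
  | .v i => v i
  | .m s t => m (s.ev m v) (t.ev m v)

theorem dfo_ev (s : Q n) : DfO (n := n + 1) (fun M m v => s.ev m (fun i => v i.succ) = v 0) := by
  induction s with
  | v i =>
    exact ((dfb_gh (n := n + 1)).and (Dfb.eq i.succ 0)).congr fun B _ v => by
      constructor
      · rintro ⟨m, hm, h⟩
        exact ⟨⟨m, hm⟩, h⟩
      · rintro ⟨⟨m, hm⟩, h⟩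
        exact ⟨m, hm, h⟩
  | m s t ihs iht =>
    have h1 : DfO (n := n + 3) (fun M m v => s.ev m (fun i => v i.succ.succ.succ) = v 1) :=
      (ihs.rename (n := n + 3) (fun i => Fin.cases 1 (fun j => j.succ.succ.succ) i)).congr
        fun M m v => Iff.rfl
    have h2 : DfO (n := n + 3) (fun M m v => t.ev m (fun i => v i.succ.succ.succ) = v 0) :=
      (iht.rename (n := n + 3) (fun i => Fin.cases 0 (fun j => j.succ.succ.succ) i)).congr
        fun M m v => Iff.rfl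
    have h3 : DfO (n := n + 3) (fun M m v => m (v 1) (v 0) = v 2) :=
      (dfb_gh.and (dfb_rr 1 0 2)).congr fun B _ v => by
        constructor
        · rintro ⟨m, hm, h⟩
          exact ⟨⟨m, hm⟩, (hm _ _ _).2 h⟩
        · rintro ⟨⟨m, hm⟩, h⟩
          exact ⟨m, hm, (hm _ _ _).1 h⟩
    refine (DfO.ex (P := fun M m v => ∃ y, s.ev m (fun i => v i.succ.succ) = v 0 ∧
      t.ev m (fun i => v i.succ.succ) = y ∧ m (v 0) y = v 1) (DfO.ex (P := fun M m v =>
        s.ev m (fun i => v i.succ.succ.succ) = v 1 ∧ t.ev m (fun i => v i.succ.succ.succ) = v 0 ∧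
          m (v 1) (v 0) = v 2) (h1.and (h2.and h3)))).congr fun M m v => ?_
    constructor
    · intro h
      exact ⟨_, _, rfl, rfl, h⟩
    · rintro ⟨x, y, h1, h2, h3⟩
      change m (s.ev m fun i => v i.succ) (t.ev m fun i => v i.succ) = v 0
      change s.ev m (fun i => v i.succ) = x at h1
      change t.ev m (fun i => v i.succ) = y at h2
      rw [h1, h2]
      exact h3

/-- equations between terms -/
theorem DfO.teq (s t : Q n) : DfO (n := n) (fun _ m v => s.ev m v = t.ev m v) :=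
  (DfO.ex (P := fun _ m v => s.ev m (fun i => v i.succ) = v 0 ∧
    t.ev m (fun i => v i.succ) = v 0) ((dfo_ev s).and (dfo_ev t))).congr fun M m v => by
    constructor
    · intro h
      exact ⟨_, rfl, h.symm⟩
    · rintro ⟨x, h1, h2⟩
      exact h1.trans h2.symm

theorem DfO.eq (i j : Fin n) : DfO (n := n) (fun _ _ v => v i = v j) := DfO.teq (.v i) (.v j)

theorem DfO.op (i j k : Fin n) : DfO (n := n) (fun _ m v => m (v i) (v j) = v k) :=
  DfO.teq (.m (.v i) (.v j)) (.v k)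

end

/-- definable codings of graphs -/
structure LCod (K : ∀ M : Type, (M → M → M) → Prop) where
  WF : ∀ M : Type, (M → M → M) → Prop
  Vx : ∀ M : Type, (M → M → M) → M → Prop
  Aj : ∀ M : Type, (M → M → M) → M → M → Prop
  dWF : DfO (n := 0) (fun M m _ => WF M m)
  dVx : DfO (n := 1) (fun M m v => Vx M m (v 0))
  dAj : DfO (n := 2) (fun M m v => Aj M m (v 0) (v 1))
  cls : ∀ (M : Type) (m : M → M → M), WF M m → K M m
  lift : ∀ (M N : Type) (m : M → M → M) (m' : N → N → N), WF M m → WF N m' →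
    ∀ π : {u // Vx M m u} ≃ {u // Vx N m' u},
    (∀ u v, Aj N m' (π u).1 (π v).1 ↔ Aj M m u.1 v.1) →
    ∃ e : M ≃ N, ∀ x y, m' (e x) (e y) = e (m x y)
  code : ∀ (X : Type) (G : X → X → Prop), (∀ x, ¬ G x x) → (∀ x y, G x y → G y x) →
    (∀ x, ∃ a b c, a ≠ b ∧ a ≠ c ∧ b ≠ c ∧ G x a ∧ G x b ∧ G x c) → Infinite X →
    ∃ (M : Type) (m : M → M → M), WF M m ∧ ∃ π : X ≃ {u // Vx M m u},
      ∀ x y, Aj M m (π x).1 (π y).1 ↔ G x y
  card : ∀ (M : Type) (m : M → M → M), WF M m → #M ≤ max #{u // Vx M m u} ℵ₀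

namespace LCod

variable {K : ∀ M : Type, (M → M → M) → Prop} (C : LCod K)

/-- the vertices -/
def Pv (B : Type) [L3.Structure B] (x : B) : Prop := ∃ m : B → B → B, Gh B m ∧ C.Vx B m x

/-- adjacency -/
def Ar (B : Type) [L3.Structure B] (x y : B) : Prop := ∃ m : B → B → B, Gh B m ∧ C.Aj B m x y

/-- good structures -/
def Good (B : Type) [L3.Structure B] : Prop := ∃ m : B → B → B, Gh B m ∧ C.WF B m

theorem dfb_pv {n : ℕ} (a : Fin n) : Dfb (L := L3) (fun B _ (v : Fin n → B) => C.Pv B (v a)) :=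
  Dfb.rename (P := fun B _ v => ∃ m : B → B → B, Gh B m ∧ C.Vx B m (v 0)) C.dVx fun _ => a

theorem dfb_ar {n : ℕ} (a b : Fin n) :
    Dfb (L := L3) (fun B _ (v : Fin n → B) => C.Ar B (v a) (v b)) :=
  Dfb.rename (P := fun B _ v => ∃ m : B → B → B, Gh B m ∧ C.Aj B m (v 0) (v 1)) C.dAj
    fun i => if i = 0 then a else b

theorem dfb_satI {n : ℕ} (φ : Fml Gr n) :
    Dfb (L := L3) (fun B _ (v : Fin n → B) => SatI (C.Pv B) Eq (C.Ar B) φ v) := by
  induction φ with
  | eq i j => exact Dfb.eq i j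
  | rel R u =>
    cases R
    exact C.dfb_ar (u 0) (u 1)
  | not φ ih => exact ih.not
  | conj φ ih => exact Dfb.conj ih
  | ex φ ih =>
    exact Dfb.ex (P := fun B _ v => C.Pv B (v 0) ∧ SatI (C.Pv B) Eq (C.Ar B) φ v)
      ((C.dfb_pv 0).and ih)

/-- the graph of a structure -/
@[reducible] def gStr (B : Type) [L3.Structure B] : Gr.Structure {x : B // C.Pv B x} :=
  toGr (fun x y => C.Ar B x.1 y.1)

theorem satI_pv {B : Type} [L3.Structure B] (ψ : Fml Gr 0) :
    SatI (C.Pv B) Eq (C.Ar B) ψ Fin.elim0 ↔ @Models Gr {x : B // C.Pv B x} (C.gStr B) ψ := by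
  let _ := C.gStr B
  have h := satI_iff (A := B) (X := {x : B // C.Pv B x}) (P := C.Pv B) (E := Eq)
    (R := C.Ar B) (fun x => x) (fun x => ⟨x, rfl⟩)
    (fun a b => ⟨fun h => Subtype.ext h, fun h => congrArg Subtype.val h⟩) (fun a b => Iff.rfl) ψ
    Fin.elim0
  have e1 : (fun i : Fin 0 => ((Fin.elim0 i : {x : B // C.Pv B x})).1) =
      (Fin.elim0 : Fin 0 → B) := funext fun i => i.elim0
  have e2 : (fun i : Fin 0 => (Fin.elim0 i : {x : B // C.Pv B x})) = Fin.elim0 :=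
    funext fun i => i.elim0
  rw [e1, e2] at h
  exact h

theorem pv_iff {B : Type} [L3.Structure B] {m : B → B → B} (h : Gh B m) (x : B) :
    C.Pv B x ↔ C.Vx B m x := by
  constructor
  · rintro ⟨m', h', hx⟩
    rwa [h.uniq h'] at hx
  · intro hx
    exact ⟨m, h, hx⟩

theorem ar_iff {B : Type} [L3.Structure B] {m : B → B → B} (h : Gh B m) (x y : B) :
    C.Ar B x y ↔ C.Aj B m x y := by
  constructor
  · rintro ⟨m', h', hx⟩
    rwa [h.uniq h'] at hx
  · intro hx
    exact ⟨m, h, hx⟩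

/-- isomorphisms preserve the definable relations -/
theorem pv_equiv {A B : Type} [L3.Structure A] [L3.Structure B] (e : A ≃[L3] B) (x : A) :
    C.Pv A x ↔ C.Pv B (e x) := by
  obtain ⟨φ, hφ⟩ := C.dfb_pv (n := 1) 0
  have h1 := hφ A (fun _ => x)
  have h2 := hφ B (fun _ => e x)
  exact h1.symm.trans ((sat_equiv e φ (fun _ => x)).trans h2)

theorem ar_equiv {A B : Type} [L3.Structure A] [L3.Structure B] (e : A ≃[L3] B) (x y : A) :
    C.Ar A x y ↔ C.Ar B (e x) (e y) := by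
  obtain ⟨φ, hφ⟩ := C.dfb_ar (n := 2) 0 1
  have h1 := hφ A (fun i => if i = 0 then x else y)
  have h2 := hφ B (fun i => e (if i = 0 then x else y))
  have h3 := sat_equiv e φ (fun i => if i = 0 then x else y)
  simp only [Fin.isValue, if_true, one_ne_zero, if_false] at h1 h2
  rw [← h1, ← h2]
  exact h3

include C in
/-- **Hardness** -/
theorem hard {L : FirstOrder.Language.{0, 0}} [L.IsRelational]
    [Countable (Σ n, L.Relations n)] (ψ : Fml L 0) :
    ∃ ψ' : Fml L3 0, (∀ (B : Type) [L3.Structure B], Models B ψ' →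
      ∃ m : B → B → B, (∀ x y z, Rr B x y z ↔ m x y = z) ∧ K B m) ∧
      ∀ μ : Cardinal.{0}, ℵ₀ < μ → (Categorical ψ' μ ↔ Categorical ψ μ) := by
  obtain ⟨ψ1, hnice, hcat⟩ := hard_deg3 ψ
  have dG : Dfb (L := L3) (n := 0) (fun B _ _ => C.Good B) := C.dWF
  obtain ⟨ψ2, hψ2⟩ := dG.and (C.dfb_satI ψ1)
  have hm : ∀ (B : Type) [L3.Structure B], Models B ψ2 ↔
      C.Good B ∧ @Models Gr {x : B // C.Pv B x} (C.gStr B) ψ1 := by
    intro B _
    refine (hψ2 B Fin.elim0).trans (and_congr Iff.rfl ?_)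
    exact C.satI_pv ψ1
  have hcard : ∀ (B : Type) [L3.Structure B], C.Good B → ∀ μ : Cardinal.{0}, ℵ₀ < μ →
      (#B = μ ↔ #{x : B // C.Pv B x} = μ) := by
    rintro B _ ⟨m, hm1, hm2⟩ μ hμ
    have e : #{x : B // C.Pv B x} = #{x : B // C.Vx B m x} :=
      Cardinal.mk_congr (Equiv.subtypeEquivRight fun x => C.pv_iff hm1 x)
    have h1 := C.card B m hm2
    have h2 : #{x : B // C.Vx B m x} ≤ #B := Cardinal.mk_subtype_le _
    rw [e]
    constructor
    · rintro rfl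
      rcases le_total #{x : B // C.Vx B m x} ℵ₀ with h3 | h3
      · rw [max_eq_right h3] at h1
        exact absurd hμ (not_lt.2 h1)
      · rw [max_eq_left h3] at h1
        exact le_antisymm h2 h1
    · rintro rfl
      rw [max_eq_left hμ.le] at h1
      exact le_antisymm h1 h2
  -- the code of a model
  have key : ∀ (X : Type) (_ : Gr.Structure X), Infinite X → Models X ψ1 →
      ∃ (B : Type) (i : L3.Structure B), Models B ψ2 ∧
        Nonempty (@FirstOrder.Language.Equiv Gr X {x : B // C.Pv B x} _ (C.gStr B)) := by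
    intro X _ hinf hX
    have hd := hnice X hX
    obtain ⟨M, m, hM, π, hπ⟩ := C.code X (gA X) hd.irr hd.symm (fun x => by
      obtain ⟨a, b, c, h1, h2, h3, h4, h5, h6⟩ := hd.deg x
      exact ⟨a, b, c, h1, h2, h3, h4, h5, h6⟩) hinf
    let i : L3.Structure M := toL3 (fun x y z => m x y = z)
    have hg : Gh M m := fun x y z => Iff.rfl
    let _ := C.gStr M
    let f0 : X ≃ {x : M // C.Pv M x} := π.trans (Equiv.subtypeEquivRight fun x =>
      (C.pv_iff hg x).symm)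
    let f : X ≃[Gr] {x : M // C.Pv M x} := mkGr f0 fun x y =>
      (C.ar_iff hg _ _).trans (hπ x y)
    exact ⟨M, i, (hm M).2 ⟨⟨m, hg, hM⟩,
      (Pool.Agent.Helper140.CC.models_of_equiv f ψ1).1 hX⟩, ⟨f⟩⟩
  -- isomorphic graphs
  have key2 : ∀ (A B : Type) [L3.Structure A] [L3.Structure B], C.Good A → C.Good B →
      Nonempty (@FirstOrder.Language.Equiv Gr {x : A // C.Pv A x} {x : B // C.Pv B x}
        (C.gStr A) (C.gStr B)) → Nonempty (A ≃[L3] B) := by
    rintro A B _ _ ⟨m, hm1, hm2⟩ ⟨m', hm3, hm4⟩ ⟨f⟩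
    let _ := C.gStr A
    let _ := C.gStr B
    have hf : ∀ x y : {x : A // C.Pv A x}, C.Ar B (f.toEquiv x).1 (f.toEquiv y).1 ↔
        C.Ar A x.1 y.1 := fun x y => gA_equiv f x y
    let π : {u // C.Vx A m u} ≃ {u // C.Vx B m' u} :=
      ((Equiv.subtypeEquivRight fun x => (C.pv_iff hm1 x).symm).trans f.toEquiv).trans
        (Equiv.subtypeEquivRight fun x => C.pv_iff hm3 x)
    obtain ⟨e, he⟩ := C.lift A B m m' hm2 hm4 π fun u v => by
      rw [← C.ar_iff hm3, ← C.ar_iff hm1]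
      exact hf _ _
    refine ⟨mkL3 e fun x y z => ?_⟩
    rw [hm3, hm1, he]
    exact e.injective.eq_iff
  have key3 : ∀ (A B : Type) [L3.Structure A] [L3.Structure B] (e : A ≃[L3] B),
      Nonempty (@FirstOrder.Language.Equiv Gr {x : A // C.Pv A x} {x : B // C.Pv B x}
        (C.gStr A) (C.gStr B)) := by
    intro A B _ _ e
    let _ := C.gStr A
    let _ := C.gStr B
    refine ⟨mkGr (e.toEquiv.subtypeEquiv fun x => C.pv_equiv e x) fun x y => ?_⟩
    exact (C.ar_equiv e x.1 y.1).symm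
  refine ⟨ψ2, fun B _ hB => ?_, fun μ hμ => ?_⟩
  · obtain ⟨m, h1, h2⟩ := ((hm B).1 hB).1
    exact ⟨m, h1, C.cls B m h2⟩
  rw [← hcat μ hμ]
  have hinf : ∀ X : Type, #X = μ → Infinite X := fun X hX =>
    Cardinal.infinite_iff.2 (by rw [hX]; exact hμ.le)
  constructor
  · rintro ⟨⟨B, _, hBc, hB⟩, h⟩
    refine ⟨⟨_, C.gStr B, (hcard B ((hm B).1 hB).1 μ hμ).1 hBc, ((hm B).1 hB).2⟩,
      fun X Y _ _ hX hY hX' hY' => ?_⟩
    obtain ⟨A, _, hA, ⟨f⟩⟩ := key X _ (hinf X hX) hX'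
    obtain ⟨D, _, hD, ⟨g⟩⟩ := key Y _ (hinf Y hY) hY'
    let _ := C.gStr A
    let _ := C.gStr D
    have hAc : #A = μ := (hcard A ((hm A).1 hA).1 μ hμ).2
      ((Cardinal.mk_congr f.toEquiv).symm.trans hX)
    have hDc : #D = μ := (hcard D ((hm D).1 hD).1 μ hμ).2
      ((Cardinal.mk_congr g.toEquiv).symm.trans hY)
    obtain ⟨e⟩ := h A D hAc hDc hA hD
    obtain ⟨e'⟩ := key3 A D e
    exact ⟨g.symm.comp (e'.comp f)⟩
  · rintro ⟨⟨X, _, hXc, hX⟩, h⟩
    obtain ⟨B, i, hB, ⟨f⟩⟩ := key X _ (hinf X hXc) hX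
    let _ := C.gStr B
    refine ⟨⟨B, i, (hcard B ((hm B).1 hB).1 μ hμ).2
      ((Cardinal.mk_congr f.toEquiv).symm.trans hXc), hB⟩, fun A B _ _ hA hB hA' hB' => ?_⟩
    obtain ⟨h1, h2⟩ := (hm A).1 hA'
    obtain ⟨h3, h4⟩ := (hm B).1 hB'
    exact key2 A B h1 h3 (@h _ _ (C.gStr A) (C.gStr B) ((hcard A h1 μ hμ).1 hA)
      ((hcard B h3 μ hμ).1 hB) h2 h4)

end LCod

end Pool.Agent.N649.SL
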