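import Pool.Agent.N649.SL.Gen
import Pool.Agent.N649.SV.Stm

set_option autoImplicit false

/-!
# Sentences of `L_{ω₁,ω}` about semigroups: statements of the leaves
-/

namespace Pool.Agent.N649.SL

open FirstOrder FirstOrder.Language Cardinal Ordinal
open Pool.Agent.Helper140.CC (Fml Sat Models Categorical)
open Pool.Agent.R377.LW (L3 Rr)
open Pool.Agent.N649.SV (KP KR KN KS KI KC)
open Pool.Agent.N649.SG.Light (SG LU RU)

/-- every sentence is coded by a sentence about members of `K` -/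
def HardK (K : ∀ M : Type, (M → M → M) → Prop) : Prop :=
  ∀ (L : FirstOrder.Language.{0, 0}) [L.IsRelational] [Countable (Σ n, L.Relations n)]
    (ψ : Fml L 0), ∃ ψ' : Fml L3 0, (∀ (B : Type) [L3.Structure B], Models B ψ' →
      ∃ m : B → B → B, (∀ x y z, Rr B x y z ↔ m x y = z) ∧ K B m) ∧
      ∀ μ : Cardinal.{0}, ℵ₀ < μ → (Categorical ψ' μ ↔ Categorical ψ μ)

def Leaf_P : Prop := Nonempty (LCod fun _ m => KP m)
def Leaf_R : Prop := Nonempty (LCod fun _ m => KR m)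
def Leaf_I : Prop := ∀ p : ℕ, p.Prime → Nonempty (LCod fun _ m => KI p m)
def Leaf_C : Prop := ∀ p : ℕ, p.Prime → Nonempty (LCod fun _ m => KC p m)
def Leaf_NS : Prop := HardK (fun _ m => KN m) ∧ HardK (fun _ m => KS m)

/-- the transfer for `x y = x z` and `y x = z x` -/
def Leaf_T : Prop := ∀ ψ : Fml L3 0,
  ((∀ (B : Type) [L3.Structure B], Models B ψ →
      ∃ m : B → B → B, (∀ x y z, Rr B x y z ↔ m x y = z) ∧ SG m ∧ LU m) ∨
    (∀ (B : Type) [L3.Structure B], Models B ψ →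
      ∃ m : B → B → B, (∀ x y z, Rr B x y z ↔ m x y = z) ∧ SG m ∧ RU m)) →
  ∀ μ μ' : Cardinal.{0}, ℶ_ (ω_ 1) ≤ μ → ℶ_ (ω_ 1) ≤ μ' → Categorical ψ μ → Categorical ψ μ'

end Pool.Agent.N649.SL
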