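import Pool.Agent.N649.SL.StmG

set_option autoImplicit false

/-!
# Nonabelian nilpotent groups of odd exponent: statement of the leaf
-/

namespace Pool.Agent.N649.SL

open Pool.Agent.N649.SG.Light (T Sa)
open Pool.Agent.N649.SV (Grp)

/-- varieties with a nonabelian nilpotent group of odd exponent are hard -/
def Leaf_Co : Prop := ∀ E : Set (T × T),
  (∃ (G : Type) (_ : Group G), Sa E (fun x y : G => x * y) ∧ Group.IsNilpotent G ∧
    (∃ k : ℕ, Odd k ∧ ∀ x : G, x ^ k = 1) ∧ ∃ a b : G, a * b ≠ b * a) →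
  HardK (fun _ m => Grp m ∧ Sa E m)

end Pool.Agent.N649.SL
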