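import Pool.Agent.N649.SL.Stm
import Pool.Agent.N649.SV.G

set_option autoImplicit false

/-!
# Sentences of `L_{ω₁,ω}` about rectangular groups: statements of the leaves
-/

namespace Pool.Agent.N649.SL

open FirstOrder FirstOrder.Language Cardinal Ordinal
open Pool.Agent.Helper140.CC (Fml Sat Models Categorical)
open Pool.Agent.R377.LW (L3 T3R Rr toL3 rr_toL3 mkL3 rr_equiv dfb_rr)
open Pool.Agent.N649.SG.Light (T Sa SG LU RU RectGp)
open Pool.Agent.N649.SV (Grp)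

/-- the product of a left zero band `C`, the group `H` and a right zero band `D` -/
def RG (C H D : Type) (_ : H → H → H) : Type := C × H × D

/-- the product of `RG` -/
def rgm {C H D : Type} (h : H → H → H) (x y : RG C H D h) : RG C H D h :=
  (x.1, h x.2.1 y.2.1, y.2.2)

instance {C H D : Type} (h : H → H → H) : L3.Structure (RG C H D h) :=
  toL3 (fun x y z => rgm h x y = z)

/-- `H` with the operation `h` -/
def OT (H : Type) (_ : H → H → H) : Type := H

instance {H : Type} (h : H → H → H) : L3.Structure (OT H h) :=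
  toL3 (fun x y z : H => h x y = z)

/-- a sentence about `RG (Fin a) H (Fin c) h` as a sentence about `H` -/
def Leaf_Gt : Prop := ∀ (a c : ℕ) (ψ : Fml L3 0), ∃ ψ' : Fml L3 0,
  (∀ (B : Type) [L3.Structure B], Models B ψ' → ∃ m : B → B → B, Gh B m ∧ Grp m) ∧
  ∀ (H : Type) (h : H → H → H), Grp h →
    (Models (OT H h) ψ' ↔ Models (RG (Fin a) H (Fin c) h) ψ)

/-- the numbers of the classes are definable -/
def Leaf_Gd : Prop := ∀ P : ℕ∞ → ℕ∞ → Prop, ∃ θ : Fml L3 0,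
  ∀ (C H D : Type) (h : H → H → H), Nonempty C → Nonempty H → Nonempty D → Grp h →
    (Models (RG C H D h) θ ↔ P (ENat.card C) (ENat.card D))

/-- the shape of rectangular groups -/
def Leaf_Gs : Prop := ∀ (B : Type) [L3.Structure B] [Nonempty B] (m : B → B → B), Gh B m →
  RectGp m → ∃ (C H D : Type) (h : H → H → H), Nonempty C ∧ Nonempty H ∧ Nonempty D ∧ Grp h ∧
    (∀ E : Set (T × T), Sa E m → Sa E h) ∧ Nonempty (B ≃[L3] RG C H D h)

/-- the bands can be replaced -/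
def Leaf_Gk : Prop := ∀ (ψ : Fml L3 0) (C C' D D' H : Type) (h : H → H → H),
  ((Infinite C ∧ Infinite C') ∨ Nonempty (C ≃ C')) →
  ((Infinite D ∧ Infinite D') ∨ Nonempty (D ≃ D')) →
    (Models (RG C H D h) ψ ↔ Models (RG C' H D' h) ψ)

/-- the factors are determined -/
def Leaf_Gi : Prop := ∀ (C H D C' H' D' : Type) (h : H → H → H) (h' : H' → H' → H'),
  Nonempty C → Nonempty H → Nonempty D → Nonempty C' → Nonempty H' → Nonempty D' →
  Grp h → Grp h' → Nonempty (RG C H D h ≃[L3] RG C' H' D' h') →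
    Nonempty (C ≃ C') ∧ Nonempty (D ≃ D') ∧ ∃ e : H ≃ H', ∀ x y, e (h x y) = h' (e x) (e y)

/-- small models -/
def Leaf_Gl : Prop := ∀ ψ : Fml L3 0,
  (∀ (B : Type) [L3.Structure B], Models B ψ → ∃ m : B → B → B, Gh B m ∧ RectGp m) →
  ∀ (C H D : Type) (h : H → H → H), Nonempty C → Nonempty H → Nonempty D → Grp h →
    Models (RG C H D h) ψ → ∀ ν κ₁ κ₂ κ₃ : Cardinal.{0}, ℵ₀ ≤ ν → ν ≤ #(RG C H D h) →
    κ₁ ≤ ν → κ₁ ≤ #C → κ₂ ≤ ν → κ₂ ≤ #H → κ₃ ≤ ν → κ₃ ≤ #D →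
    ∃ (C' H' D' : Type) (h' : H' → H' → H'), Nonempty C' ∧ Nonempty H' ∧ Nonempty D' ∧ Grp h' ∧
      Models (RG C' H' D' h') ψ ∧ #(RG C' H' D' h') = ν ∧ κ₁ ≤ #C' ∧ κ₂ ≤ #H' ∧ κ₃ ≤ #D'

/-- the conjecture for the sentences all of whose models have a property -/
def Conj (K : ∀ M : Type, (M → M → M) → Prop) : Prop := ∀ ψ : Fml L3 0,
  (∀ (B : Type) [L3.Structure B], Models B ψ →
    ∃ m : B → B → B, (∀ x y z, Rr B x y z ↔ m x y = z) ∧ K B m) →
  ∀ μ μ' : Cardinal.{0}, ℶ_ (ω_ 1) ≤ μ → ℶ_ (ω_ 1) ≤ μ' → Categorical ψ μ → Categorical ψ μ'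

/-- **the conjecture for rectangular groups follows from the conjecture for groups** -/
def Leaf_G : Prop := Leaf_Gt → Leaf_Gd → Leaf_Gs → Leaf_Gk → Leaf_Gi → Leaf_Gl →
  ∀ E : Set (T × T), Conj (fun _ m => Grp m ∧ Sa E m) → Conj (fun _ m => RectGp m ∧ Sa E m)

/-- **the conjecture for abelian groups** -/
def Leaf_Ab : Prop := Conj (fun _ m => Grp m ∧ ∀ x y, m x y = m y x)

end Pool.Agent.N649.SL
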